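import Mathlib

set_option autoImplicit false

namespace Pool.Agent.H.MP_7e1e73_al

open ExteriorAlgebra Module

variable {k V : Type} [Field k] [AddCommGroup V] [Module k V]

abbrev Ex (k V : Type) [Field k] [AddCommGroup V] [Module k V] := ExteriorAlgebra k V

noncomputable def dl (φ : Dual k V) : Ex k V →ₗ[k] Ex k V :=
  CliffordAlgebra.contractLeft (Q := (0 : QuadraticForm k V)) φ

lemma dl_mul (φ : Dual k V) (v : V) (b : Ex k V) : dl φ (ι k v * b) = φ v • b - ι k v * dl φ b :=
  CliffordAlgebra.contractLeft_ι_mul φ v b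

lemma dl_alg (φ : Dual k V) (r : k) : dl φ (algebraMap k _ r) = 0 :=
  CliffordAlgebra.contractLeft_algebraMap _ φ r

lemma dl_one (φ : Dual k V) : dl φ 1 = 0 := by simpa using dl_alg φ 1

lemma dl_ι (φ : Dual k V) (v : V) : dl φ (ι k v) = algebraMap k _ (φ v) := by
  simpa [dl_one, Algebra.algebraMap_eq_smul_one] using dl_mul φ v 1

lemma swap (u v : V) : ι k u * ι k v = -(ι k v * ι k u) :=
  eq_neg_of_add_eq_zero_left (ι_add_mul_swap u v)

lemma swap' (u v : V) (b : Ex k V) : ι k u * (ι k v * b) = -(ι k v * (ι k u * b)) := by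
  rw [← mul_assoc, swap, neg_mul, mul_assoc]

/-- A subspace stable under the generators is a submodule. -/
def up {M : Type} [AddCommGroup M] [Module k M] [Module (Ex k V) M] [IsScalarTower k (Ex k V) M]
    (N : Submodule k M) (h : ∀ v : V, ∀ m ∈ N, ι k v • m ∈ N) : Submodule (Ex k V) M where
  carrier := N
  add_mem' := N.add_mem
  zero_mem' := N.zero_mem
  smul_mem' a m hm := by
    induction a using CliffordAlgebra.left_induction with
    | algebraMap r => rw [algebraMap_smul]; exact N.smul_mem r hm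
    | add x y hx hy => rw [add_smul]; exact N.add_mem hx hy
    | ι_mul x v hx => rw [mul_smul]; exact h v _ hx

/-- Elements sent into `N` by a generator. -/
def xs {M : Type} [AddCommGroup M] [Module k M] [Module (Ex k V) M] [IsScalarTower k (Ex k V) M]
    (x : V) (N : Submodule (Ex k V) M) : Submodule (Ex k V) M :=
  up (k := k) (V := V)
    { carrier := {m | ι k x • m ∈ N}
      add_mem' := fun ha hb => by simpa [smul_add] using N.add_mem ha hb
      zero_mem' := by simp
      smul_mem' := fun c m hm => by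
        change ι k x • c • m ∈ N
        rw [← algebraMap_smul (Ex k V) c m, smul_smul, ← Algebra.commutes, mul_smul]
        exact N.smul_mem _ hm }
    fun v m hm => by
      change ι k x • ι k v • m ∈ N
      rw [smul_smul, swap, neg_smul, mul_smul]
      exact N.neg_mem (N.smul_mem _ hm)

lemma mem_xs {M : Type} [AddCommGroup M] [Module k M] [Module (Ex k V) M] [IsScalarTower k (Ex k V) M]
    {x : V} {N : Submodule (Ex k V) M} {m : M} : m ∈ xs (k := k) x N ↔ ι k x • m ∈ N := Iff.rfl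

/-- Elements of `N` whose contraction is in `N`. -/
noncomputable def ds (φ : Dual k V) (N : Ideal (Ex k V)) : Ideal (Ex k V) :=
  up (k := k) (V := V) (N.restrictScalars k ⊓ (N.restrictScalars k).comap (dl φ)) fun v m hm =>
    ⟨N.smul_mem _ hm.1, by
      change dl φ (ι k v * m) ∈ N
      rw [dl_mul]
      exact N.sub_mem ((N.restrictScalars k).smul_mem _ hm.1) (N.mul_mem_left _ hm.2)⟩

lemma mem_ds {φ : Dual k V} {N : Ideal (Ex k V)} {a : Ex k V} : a ∈ ds φ N ↔ a ∈ N ∧ dl φ a ∈ N :=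
  Iff.rfl

def II (U : Submodule k V) : Ideal (Ex k V) := Ideal.span (ι k '' U)

lemma ι_mem {U : Submodule k V} {u : V} (h : u ∈ U) : ι k u ∈ II U := Ideal.subset_span ⟨u, h, rfl⟩

lemma II_le {U : Submodule k V} {N : Ideal (Ex k V)} (h : ∀ u ∈ U, ι k u ∈ N) : II U ≤ N :=
  Ideal.span_le.2 (by rintro _ ⟨u, hu, rfl⟩; exact h u hu)

lemma II_mono {U Y : Submodule k V} (h : U ≤ Y) : II U ≤ II Y := II_le fun _ hu => ι_mem (h hu)

lemma ι_mul_mem {N : Ideal (Ex k V)} {u : V} (h : ι k u ∈ N) (c : Ex k V) : ι k u * c ∈ N := by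
  have : (1 : Ex k V) ∈ xs (k := k) u N := by rw [mem_xs]; simpa
  have := (xs (k := k) u N).smul_mem c this
  rwa [mem_xs, smul_eq_mul, smul_eq_mul, mul_one] at this

lemma II_le_ds {U : Submodule k V} {N : Ideal (Ex k V)} {φ : Dual k V} (h : II U ≤ N)
    (hφ : ∀ u ∈ U, φ u = 0) : II U ≤ ds φ N :=
  II_le fun u hu => ⟨h (ι_mem hu), by
    change dl φ (ι k u) ∈ N
    rw [dl_ι, hφ u hu, map_zero]; exact N.zero_mem⟩

lemma eps_II {a : Ex k V} {U : Submodule k V} (h : a ∈ II U) : algebraMapInv a = 0 := by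
  have : II U ≤ RingHom.ker (algebraMapInv (R := k) (M := V)) :=
    II_le fun u _ => by simp [algebraMapInv]
  exact this h

lemma exists_phi {U : Submodule k V} {x : V} (h : x ∉ U) :
    ∃ φ : Dual k V, φ x = 1 ∧ ∀ u ∈ U, φ u = 0 := by
  obtain ⟨f, h1, h2⟩ := U.exists_le_ker_of_notMem h
  exact ⟨(f x)⁻¹ • f, by simp [h1], fun u hu => by simp [show f u = 0 from h2 hu]⟩

lemma x_mul_mem {U : Submodule k V} {x : V} {a : Ex k V} (h : a ∈ II (U ⊔ k ∙ x)) : ι k x * a ∈ II U := by
  have : II (U ⊔ k ∙ x) ≤ xs (k := k) x (II U) := II_le fun u hu => by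
    obtain ⟨y, hy, z, hz, rfl⟩ := Submodule.mem_sup.1 hu
    obtain ⟨c, rfl⟩ := Submodule.mem_span_singleton.1 hz
    rw [mem_xs, map_add, map_smul, smul_eq_mul, mul_add, mul_smul_comm, ι_sq_zero, smul_zero, add_zero]
    exact Ideal.mul_mem_left _ _ (ι_mem hy)
  exact this h

lemma colL {U : Submodule k V} {x : V} {φ : Dual k V} (h1 : φ x = 1) (h2 : ∀ u ∈ U, φ u = 0)
    {a : Ex k V} (h : a ∈ II (U ⊔ k ∙ x)) : a - ι k x * dl φ a ∈ II U := by
  have := (mem_ds.1 (II_le_ds le_rfl h2 (x_mul_mem h))).2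
  rwa [dl_mul, h1, one_smul] at this

lemma colR {U : Submodule k V} {x : V} (hx : x ∉ U) {a : Ex k V} (h : a * ι k x ∈ II U) :
    a ∈ II (U ⊔ k ∙ x) := by
  obtain ⟨φ, h1, h2⟩ := exists_phi hx
  let r : Ex k V → Ex k V := fun b => CliffordAlgebra.contractRight (Q := (0 : QuadraticForm k V)) b φ
  have r1 : ∀ b v, r (b * ι k v) = φ v • b - r b * ι k v := fun b v =>
    CliffordAlgebra.contractRight_mul_ι φ v b
  have key : ∀ b ∈ II U, ∀ c, r (c * b) ∈ II U := by
    intro b hb
    refine Submodule.span_induction (p := fun b _ => ∀ c, r (c * b) ∈ II U) ?_ ?_ ?_ ?_ hb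
    · rintro _ ⟨u, hu, rfl⟩ c
      rw [r1, h2 u hu, zero_smul, zero_sub]
      exact neg_mem (Ideal.mul_mem_left _ _ (ι_mem hu))
    · intro c; simp [r]
    · intro x y _ _ hx hy c
      simpa [r, mul_add] using add_mem (hx c) (hy c)
    · intro a x _ hx c
      rw [smul_eq_mul, ← mul_assoc]; exact hx _
  have := key _ h 1
  rw [one_mul, r1, h1, one_smul] at this
  have := add_mem (II_mono (le_sup_left (b := k ∙ x)) this)
    (Ideal.mul_mem_left _ (r a) (ι_mem (Submodule.mem_sup_right (Submodule.mem_span_singleton_self x))))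
  simpa using this

abbrev L1 (k V : Type) [Field k] [AddCommGroup V] [Module k V] : Submodule k (Ex k V) :=
  LinearMap.range (ι k)

lemma ind2 {a : Ex k V} (h : a ∈ L1 k V * L1 k V) {p : Ex k V → Prop} (h1 : ∀ u v, p (ι k u * ι k v))
    (h2 : ∀ a b, p a → p b → p (a + b)) : p a :=
  Submodule.mul_induction_on h (by rintro _ ⟨u, rfl⟩ _ ⟨v, rfl⟩; exact h1 u v) h2

lemma dl2 (φ : Dual k V) {a : Ex k V} (h : a ∈ L1 k V * L1 k V) : ∃ v, dl φ a = ι k v := by
  refine ind2 h (p := fun a => ∃ v, dl φ a = ι k v) (fun u v => ⟨φ u • v - φ v • u, ?_⟩) ?_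
  · rw [dl_mul, dl_ι, ← Algebra.commutes, ← Algebra.smul_def]; simp
  · rintro a b ⟨u, hu⟩ ⟨v, hv⟩; exact ⟨u + v, by simp [hu, hv]⟩

lemma central {a : Ex k V} (h : a ∈ L1 k V * L1 k V) (b : Ex k V) : a * b = b * a := by
  induction b using CliffordAlgebra.left_induction with
  | algebraMap r => exact (Algebra.commutes r a).symm
  | add x y hx hy => rw [mul_add, add_mul, hx, hy]
  | ι_mul x w hx =>
    have : a * ι k w = ι k w * a := by
      refine ind2 h (p := fun a => a * ι k w = ι k w * a) (fun u v => ?_) fun a b ha hb => ?_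
      · rw [mul_assoc, swap v, mul_neg, swap' u, neg_neg]
      · rw [mul_add, add_mul, ha, hb]
    change a * (ι k w * x) = ι k w * x * a
    rw [← mul_assoc, this, mul_assoc, hx, mul_assoc]

lemma two_top {a : Ex k V} (h : a ∈ L1 k V * L1 k V) : a ∈ II (⊤ : Submodule k V) :=
  ind2 h (fun _ _ => Ideal.mul_mem_left _ _ (ι_mem trivial)) fun _ _ => add_mem

lemma deg2 {Y : Submodule k V} {a : Ex k V} (h : a ∈ L1 k V * L1 k V) (hY : a ∈ II Y) :
    a ∈ L1 k V * Y.map (ι k) := by
  obtain ⟨C, hC⟩ := Y.exists_isCompl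
  let p : V →ₗ[k] V := C.subtype ∘ₗ C.projectionOnto Y hC.symm
  have p1 : ∀ v, v - p v ∈ Y := fun v => by
    have := Submodule.projection_add_projection_eq_self hC v
    rw [← eq_sub_iff_add_eq] at this
    exact (show _ = v - p v from this) ▸ Submodule.projection_apply_mem hC v
  have p2 : ExteriorAlgebra.map p a = 0 := by
    have : II Y ≤ RingHom.ker (ExteriorAlgebra.map p) := II_le fun u hu => by
      rw [RingHom.mem_ker, map_apply_ι]
      simp [p, Submodule.projectionOnto_apply_of_mem_right hC.symm hu]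
    exact this hY
  have : a - ExteriorAlgebra.map p a ∈ L1 k V * Y.map (ι k) := by
    refine ind2 h (p := fun a => a - ExteriorAlgebra.map p a ∈ L1 k V * Y.map (ι k)) (fun u v => ?_)
      fun a b ha hb => ?_
    · have e : ι k u * ι k v - ExteriorAlgebra.map p (ι k u * ι k v) =
          ι k u * ι k (v - p v) - ι k (p v) * ι k (u - p u) := by
        rw [map_mul, map_apply_ι, map_apply_ι, swap (p v), map_sub, map_sub]; noncomm_ring
      rw [e]
      exact sub_mem (Submodule.mul_mem_mul ⟨_, rfl⟩ ⟨_, p1 _, rfl⟩)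
        (Submodule.mul_mem_mul ⟨_, rfl⟩ ⟨_, p1 _, rfl⟩)
    · convert add_mem ha hb using 1
      rw [map_add]; abel
  rwa [p2, sub_zero] at this

lemma lin : ∀ (m : ℕ) (v : Fin m → V) (Y : Submodule k V) (d : Fin m → Ex k V),
    ∑ j, d j * ι k (v j) ∈ II Y → d ∈ Submodule.span (Ex k V)
      ({d | ∃ c : Fin m → k, d = (fun j => algebraMap k _ (c j)) ∧ ∑ j, c j • v j ∈ Y} ∪
       {d | ∃ l : Fin m → V, d = (fun j => ι k (l j)) ∧ ∑ j, ι k (l j) * ι k (v j) ∈ II Y})
  | 0, _, _, d, _ => by rw [Subsingleton.elim d 0]; exact zero_mem _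
  | m + 1, v, Y, d, h => by
    set N := Submodule.span (Ex k V)
      ({d | ∃ c : Fin (m + 1) → k, d = (fun j => algebraMap k _ (c j)) ∧ ∑ j, c j • v j ∈ Y} ∪
       {d | ∃ l : Fin (m + 1) → V, d = (fun j => ι k (l j)) ∧ ∑ j, ι k (l j) * ι k (v j) ∈ II Y}) with hN
    have x0 : v 0 ∈ Y ⊔ k ∙ v 0 := Submodule.mem_sup_right (Submodule.mem_span_singleton_self _)
    have Nle : ∀ d ∈ N, ∑ j, d j * ι k (v j) ∈ II Y := by
      intro d hd
      refine Submodule.span_induction (p := fun d _ => ∑ j, d j * ι k (v j) ∈ II Y) ?_ (by simp) ?_ ?_ hd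
      · rintro _ (⟨c, rfl, hc⟩ | ⟨l, rfl, hl⟩)
        · simpa [Algebra.smul_def] using ι_mem hc
        · exact hl
      · intro a b _ _ ha hb
        simpa [add_mul, Finset.sum_add_distrib] using add_mem ha hb
      · intro a b _ hb
        simpa [mul_assoc, Finset.mul_sum] using Ideal.mul_mem_left _ a hb
    have t := lin m (fun j => v j.succ) (Y ⊔ k ∙ v 0) (fun j => d j.succ) (by
      rw [Fin.sum_univ_succ] at h
      simpa using sub_mem (II_mono le_sup_left h) (Ideal.mul_mem_left _ (d 0) (ι_mem x0)))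
    have lift : ∃ e ∈ N, ∀ j : Fin m, e j.succ = d j.succ := by
      refine Submodule.span_induction (p := fun t _ => ∃ e ∈ N, ∀ j : Fin m, e j.succ = t j) ?_
        ⟨0, zero_mem _, fun _ => rfl⟩ ?_ ?_ t
      · rintro _ (⟨c, rfl, hc⟩ | ⟨l, rfl, hl⟩)
        · obtain ⟨y, hy, z, hz, e⟩ := Submodule.mem_sup.1 hc
          obtain ⟨c0, rfl⟩ := Submodule.mem_span_singleton.1 hz
          refine ⟨_, Submodule.subset_span (Or.inl ⟨Fin.cons (-c0) c, rfl, ?_⟩), fun j => by simp⟩
          rw [Fin.sum_univ_succ]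
          simp only [Fin.cons_zero, Fin.cons_succ, ← e]
          simpa using hy
        · by_cases hv : v 0 ∈ Y
          · refine ⟨_, Submodule.subset_span (Or.inr ⟨Fin.cons 0 l, rfl, ?_⟩), fun j => by simp⟩
            rw [Fin.sum_univ_succ]
            rw [sup_eq_left.2 ((Submodule.span_singleton_le_iff_mem _ _).2 hv)] at hl
            simpa using hl
          obtain ⟨φ, h1, h2⟩ := exists_phi hv
          obtain ⟨w, hw⟩ := dl2 φ (a := ∑ j, ι k (l j) * ι k (v j.succ))
            (sum_mem fun j _ => Submodule.mul_mem_mul ⟨_, rfl⟩ ⟨_, rfl⟩)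
          refine ⟨_, Submodule.subset_span (Or.inr ⟨Fin.cons w l, rfl, ?_⟩), fun j => by simp⟩
          have := colL h1 h2 hl
          rw [hw, swap, sub_neg_eq_add, add_comm] at this
          rw [Fin.sum_univ_succ]
          simpa using this
      · rintro a b _ _ ⟨e, he, h1⟩ ⟨f, hf, h2⟩
        exact ⟨e + f, add_mem he hf, fun j => by simp [h1, h2]⟩
      · rintro a b _ ⟨e, he, h1⟩
        exact ⟨a • e, N.smul_mem _ he, fun j => by simp [h1]⟩
    obtain ⟨e, he, h1⟩ := lift
    have e1 : d = e + (d 0 - e 0) • Pi.single 0 1 := by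
      funext j
      refine Fin.cases ?_ (fun j => ?_) j <;> simp [h1]
    have e2 : (d 0 - e 0) * ι k (v 0) ∈ II Y := by
      have := sub_mem h (Nle e he)
      rw [Fin.sum_univ_succ, Fin.sum_univ_succ] at this
      simpa [h1, sub_mul] using this
    rw [e1]
    refine add_mem he ?_
    by_cases hv : v 0 ∈ Y
    · refine N.smul_mem _ (Submodule.subset_span (Or.inl ⟨Pi.single 0 1, ?_, ?_⟩))
      · funext j
        refine Fin.cases ?_ (fun j => ?_) j <;> simp
      · simpa [Fin.sum_univ_succ] using hv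
    have : II (Y ⊔ k ∙ v 0) ≤ N.comap (LinearMap.toSpanSingleton (Ex k V) _ (Pi.single 0 1)) :=
      II_le fun u hu => Submodule.subset_span (Or.inr ⟨Pi.single 0 u, by
        funext j
        refine Fin.cases ?_ (fun j => ?_) j <;> simp, by
        have := x_mul_mem (ι_mem hu)
        rw [swap, neg_mem_iff] at this
        simpa [Fin.sum_univ_succ] using this⟩)
    exact this (colR hv e2)

end Pool.Agent.H.MP_7e1e73_al
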