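import Mathlib
import Pool.Agent.H.MP_7e1e73_al.A

set_option autoImplicit false

namespace Pool.Agent.H.MP_7e1e73_al

open ExteriorAlgebra Module

variable {k V I : Type} [Field k] [AddCommGroup V] [Module k V] [Fintype I] [DecidableEq I]
  (ω : I → Ex k V)

noncomputable def mu : (I → Ex k V) →ₗ[Ex k V] Ex k V := Fintype.linearCombination (Ex k V) ω

lemma mu_apply (s : I → Ex k V) : mu ω s = ∑ i, s i * ω i := rfl

lemma mu_single (i : I) (a : Ex k V) : mu ω (Pi.single i a) = a * ω i := by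
  simp [mu]

def cst (c : I → k) : I → Ex k V := fun i => algebraMap k _ (c i)

lemma mu_cst (c : I → k) : mu ω (cst c) = ∑ i, c i • ω i := by
  simp [mu_apply, cst, Algebra.smul_def]

noncomputable def TT (U : Submodule k V) : Submodule (Ex k V) (I → Ex k V) :=
  Submodule.span (Ex k V) {s | (∃ c, s = cst c ∧ mu ω s ∈ II U) ∨
    (∃ l : I → V, s = (fun i => ι k (l i)) ∧ mu ω s = 0) ∨
    (∃ i : I, ∃ u ∈ U, s = Pi.single i (ι k u)) ∨ ∃ i j : I, s = Pi.single i (ω j) - Pi.single j (ω i)}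

def H3 : Prop := ∀ (U : Submodule k V) (l : I → V), mu ω (fun i => ι k (l i)) ∈ II U →
  (fun i => ι k (l i)) ∈ TT ω U

noncomputable def Q2 (U : Submodule k V) : Submodule k (Ex k V) :=
  Submodule.span k (Set.range ω) ⊔ L1 k V * U.map (ι k)

noncomputable def Ux (U : Submodule k V) (x : V) : Submodule k V :=
  (Q2 ω U).comap (LinearMap.mulLeft k (ι k x) ∘ₗ ι k)

variable {ω}

lemma T1 {U : Submodule k V} {c : I → k} (h : mu ω (cst c) ∈ II U) : cst c ∈ TT ω U :=
  Submodule.subset_span (Or.inl ⟨c, rfl, h⟩)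

lemma T2 {U : Submodule k V} {l : I → V} (h : mu ω (fun i => ι k (l i)) = 0) :
    (fun i => ι k (l i)) ∈ TT ω U := Submodule.subset_span (Or.inr (Or.inl ⟨l, rfl, h⟩))

lemma T3 {U : Submodule k V} (i : I) {a : Ex k V} (h : a ∈ II U) : Pi.single i a ∈ TT ω U := by
  have : II U ≤ (TT ω U).comap (LinearMap.single (Ex k V) (fun _ => Ex k V) i) :=
    II_le fun u hu => Submodule.subset_span (Or.inr (Or.inr (Or.inl ⟨i, u, hu, rfl⟩)))
  exact this h

lemma T4 (U : Submodule k V) (i j : I) : Pi.single i (ω j) - Pi.single j (ω i) ∈ TT ω U :=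
  Submodule.subset_span (Or.inr (Or.inr (Or.inr ⟨i, j, rfl⟩)))

lemma TT_le {U : Submodule k V} {N : Submodule (Ex k V) (I → Ex k V)}
    (h1 : ∀ c, mu ω (cst c) ∈ II U → cst c ∈ N)
    (h2 : ∀ l : I → V, mu ω (fun i => ι k (l i)) = 0 → (fun i => ι k (l i)) ∈ N)
    (h3 : ∀ i : I, ∀ u ∈ U, Pi.single i (ι k u) ∈ N)
    (h4 : ∀ i j, Pi.single i (ω j) - Pi.single j (ω i) ∈ N) : TT ω U ≤ N :=
  Submodule.span_le.2 (by
    rintro _ (⟨c, rfl, h⟩ | ⟨l, rfl, h⟩ | ⟨i, u, hu, rfl⟩ | ⟨i, j, rfl⟩)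
    exacts [h1 c h, h2 l h, h3 i u hu, h4 i j])

lemma mem_Ux {U : Submodule k V} {x v : V} : v ∈ Ux ω U x ↔ ι k x * ι k v ∈ Q2 ω U := Iff.rfl

lemma prod_II {U : Submodule k V} {a : Ex k V} (h : a ∈ L1 k V * U.map (ι k)) : a ∈ II U :=
  Submodule.mul_induction_on h (by
    rintro a _ _ ⟨u, hu, rfl⟩; exact Ideal.mul_mem_left _ _ (ι_mem hu)) fun _ _ => add_mem

lemma Q2_elim {U : Submodule k V} {a : Ex k V} (h : a ∈ Q2 ω U) : ∃ c, a - mu ω (cst c) ∈ II U := by
  obtain ⟨y, hy, z, hz, rfl⟩ := Submodule.mem_sup.1 h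
  obtain ⟨c, rfl⟩ := (Submodule.mem_span_range_iff_exists_fun k).1 hy
  exact ⟨c, by rw [mu_cst]; simpa using prod_II hz⟩

lemma le_Ux (U : Submodule k V) (x : V) : U ⊔ k ∙ x ≤ Ux ω U x :=
  sup_le (fun u hu => mem_Ux.2 (Submodule.mem_sup_right
      (Submodule.mul_mem_mul (LinearMap.mem_range_self _ x) (Submodule.mem_map_of_mem hu))))
    ((Submodule.span_singleton_le_iff_mem _ _).2 (by rw [mem_Ux, ι_sq_zero]; exact zero_mem _))

variable (hω : ∀ i, ω i ∈ L1 k V * L1 k V)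
include hω

lemma cst2 (c : I → k) : mu ω (cst c) ∈ L1 k V * L1 k V := by
  rw [mu_cst]; exact sum_mem fun i _ => Submodule.smul_mem _ _ (hω i)

lemma K1 {U : Submodule k V} {x : V} {φ : Dual k V} (h1 : φ x = 1) (h2 : ∀ u ∈ U, φ u = 0) {c : I → k}
    (h : mu ω (cst c) ∈ II (U ⊔ k ∙ x)) :
    ∃ v ∈ Ux ω U x, dl φ (mu ω (cst c)) = ι k v ∧ mu ω (cst c) - ι k x * ι k v ∈ II U := by
  obtain ⟨v, hv⟩ := dl2 φ (cst2 hω c)
  have := colL h1 h2 h
  rw [hv] at this
  refine ⟨v, ?_, hv, this⟩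
  have t := deg2 (sub_mem (cst2 hω c) (Submodule.mul_mem_mul ⟨x, rfl⟩ ⟨v, rfl⟩)) this
  have t2 : mu ω (cst c) ∈ Q2 ω U := Submodule.mem_sup_left (by
    rw [mu_cst]; exact sum_mem fun i _ => Submodule.smul_mem _ _ (Submodule.subset_span ⟨i, rfl⟩))
  simpa [mem_Ux] using sub_mem t2 (Submodule.mem_sup_right t)

lemma mu_kos (i j : I) : mu ω (Pi.single i (ω j) - Pi.single j (ω i)) = 0 := by
  rw [map_sub, mu_single, mu_single, central (hω j), sub_self]

lemma mu_TT {U : Submodule k V} {s : I → Ex k V} (h : s ∈ TT ω U) : mu ω s ∈ II U :=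
  TT_le (N := Submodule.comap (mu ω) (II U)) (fun _ h => h) (fun l h => by simp [h])
    (fun i u hu => by simpa [mu_single] using ι_mul_mem (ι_mem hu) _)
    (fun i j => by simp only [Submodule.mem_comap, mu_kos hω]; exact zero_mem _) h

lemma comm_x (x : V) (a : Ex k V) : ∃ a', a * ι k x = ι k x * a' := by
  induction a using CliffordAlgebra.left_induction with
  | algebraMap r => exact ⟨_, Algebra.commutes r _⟩
  | add a b ha hb =>
    obtain ⟨a', ha⟩ := ha
    obtain ⟨b', hb⟩ := hb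
    exact ⟨a' + b', by rw [add_mul, mul_add, ha, hb]⟩
  | ι_mul a v ha =>
    obtain ⟨a', ha⟩ := ha
    refine ⟨-(ι k v * a'), ?_⟩
    change ι k v * a * _ = _
    rw [mul_assoc, ha, swap', mul_neg]

theorem syz [FiniteDimensional k V] (h3 : H3 ω) (U : Submodule k V) :
    ∀ s, mu ω s ∈ II U → s ∈ TT ω U := by
  induction U using WellFoundedGT.induction with | ind U ih => ?_
  intro s hs
  by_cases hU : U = ⊤
  · subst hU
    rw [← Finset.univ_sum_single s]
    refine sum_mem fun i _ => ?_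
    have : Pi.single i (s i) = s i • (cst (Pi.single i 1) : I → Ex k V) := by
      funext j; by_cases h : j = i
      · subst h; simp [cst]
      · simp [cst, h]
    rw [this]
    exact Submodule.smul_mem _ _ (T1 (two_top (cst2 hω _)))
  obtain ⟨x, -, hx⟩ := SetLike.exists_of_lt (lt_top_iff_ne_top.2 hU)
  obtain ⟨φ, h1, h2⟩ := exists_phi hx
  have x1 : x ∈ U ⊔ k ∙ x := Submodule.mem_sup_right (Submodule.mem_span_singleton_self _)
  have lt1 : U < U ⊔ k ∙ x := lt_of_le_of_ne le_sup_left fun h => hx (h ▸ x1)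
  have le2 := le_Ux (ω := ω) U x
  set K : Submodule (Ex k V) (I → Ex k V) :=
    Submodule.span (Ex k V) {s | ∃ c, s = cst c ∧ mu ω s ∈ II (U ⊔ k ∙ x)} with hK
  have mK : ∀ c, mu ω (cst c) ∈ II (U ⊔ k ∙ x) → cst c ∈ K := fun c h => Submodule.subset_span ⟨c, rfl, h⟩
  have xu : ∀ u ∈ Ux ω U x, ∃ c, ι k x * ι k u - mu ω (cst c) ∈ II U ∧ cst c ∈ K := by
    intro u hu
    obtain ⟨c, hc⟩ := Q2_elim hu
    refine ⟨c, hc, mK c ?_⟩
    simpa using sub_mem (ι_mul_mem (ι_mem x1) (ι k u)) (II_mono le_sup_left hc)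
  have s1 : ∃ t ∈ TT ω U ⊔ K, ∃ r, s = t + ι k x • r := by
    refine Submodule.span_induction (p := fun s _ => ∃ t ∈ TT ω U ⊔ K, ∃ r, s = t + ι k x • r) ?_
      ⟨0, zero_mem _, 0, by simp⟩ ?_ ?_ (ih _ lt1 s (II_mono le_sup_left hs))
    · rintro _ (⟨c, rfl, h⟩ | ⟨l, rfl, h⟩ | ⟨i, u, hu, rfl⟩ | ⟨i, j, rfl⟩)
      · exact ⟨_, Submodule.mem_sup_right (mK c h), 0, by simp⟩
      · exact ⟨_, Submodule.mem_sup_left (T2 h), 0, by simp⟩
      · obtain ⟨y, hy, z, hz, rfl⟩ := Submodule.mem_sup.1 hu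
        obtain ⟨c, rfl⟩ := Submodule.mem_span_singleton.1 hz
        refine ⟨_, Submodule.mem_sup_left (T3 i (ι_mem hy)), Pi.single i (algebraMap k _ c), ?_⟩
        rw [← Pi.single_smul', ← Pi.single_add, smul_eq_mul, ← Algebra.commutes, ← Algebra.smul_def]
        simp
      · exact ⟨_, Submodule.mem_sup_left (T4 U i j), 0, by simp⟩
    · rintro a b _ _ ⟨t, ht, r, rfl⟩ ⟨t', ht', r', rfl⟩
      exact ⟨t + t', add_mem ht ht', r + r', by rw [smul_add]; abel⟩
    · rintro a b _ ⟨t, ht, r, rfl⟩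
      obtain ⟨a', ha⟩ := comm_x hω x a
      exact ⟨a • t, Submodule.smul_mem _ _ ht, a' • r, by rw [smul_add, smul_smul, ha, smul_smul]⟩
  obtain ⟨t, ht, r, e⟩ := s1
  have d1 : II U ≤ ds φ (II (Ux ω U x)) := II_le_ds (II_mono (le_sup_left.trans le2)) h2
  have d2 : TT ω U ⊔ K ≤ Submodule.comap (mu ω) (ds φ (II (Ux ω U x))) := by
    refine sup_le (fun a ha => d1 (mu_TT hω ha)) (Submodule.span_le.2 ?_)
    rintro _ ⟨c, rfl, h⟩
    obtain ⟨v, hv, e1, -⟩ := K1 hω h1 h2 h
    exact mem_ds.2 ⟨II_mono le2 h, e1 ▸ ι_mem hv⟩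
  have r1 : mu ω r ∈ II (Ux ω U x) := by
    have := (mem_ds.1 (sub_mem (d1 hs) (d2 ht))).2
    rw [e, map_add, add_sub_cancel_left, map_smul, smul_eq_mul, dl_mul, h1, one_smul] at this
    simpa using add_mem this (ι_mul_mem (ι_mem (le2 x1)) (dl φ (mu ω r)))
  have d3 : TT ω (Ux ω U x) ≤ xs (k := k) x (TT ω U ⊔ K) := by
    refine TT_le (fun c h => ?_)
      (fun l h => mem_xs.2 (Submodule.smul_mem _ _ (Submodule.mem_sup_left (T2 h)))) (fun i u hu => ?_)
      (fun i j => mem_xs.2 (Submodule.smul_mem _ _ (Submodule.mem_sup_left (T4 U i j))))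
    · have : ∃ l : I → V, (fun i => ι k (l i)) ∈ K ∧
          ι k x * mu ω (cst c) - mu ω (fun i => ι k (l i)) ∈ II U := by
        refine Submodule.mul_induction_on (C := fun a => ∃ l : I → V, (fun i => ι k (l i)) ∈ K ∧
          ι k x * a - mu ω (fun i => ι k (l i)) ∈ II U) (deg2 (cst2 hω c) h) ?_ ?_
        · rintro _ ⟨v, rfl⟩ _ ⟨u, hu, rfl⟩
          obtain ⟨c, hc, hc'⟩ := xu u hu
          have e1 : (fun i => ι k (-(c i • v))) = -ι k v • (cst c : I → Ex k V) := by
            funext i; simp [cst, ← Algebra.commutes, ← Algebra.smul_def]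
          refine ⟨fun i => -(c i • v), e1 ▸ K.smul_mem _ hc', ?_⟩
          rw [e1, map_smul, swap']
          convert Ideal.mul_mem_left _ (-ι k v) hc using 1
          rw [smul_eq_mul]; noncomm_ring
        · rintro a b ⟨l, h1, h2⟩ ⟨l', h1', h2'⟩
          have e1 : (fun i => ι k ((l + l') i)) = (fun i => ι k (l i)) + fun i => ι k (l' i) := by
            funext i; simp
          refine ⟨l + l', e1 ▸ add_mem h1 h1', ?_⟩
          rw [e1, map_add]
          convert add_mem h2 h2' using 1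
          noncomm_ring
      obtain ⟨l, l1, l2⟩ := this
      have e1 : (fun i => ι k (c i • x - l i)) = ι k x • (cst c : I → Ex k V) - fun i => ι k (l i) := by
        funext i; simp [cst, ← Algebra.commutes, ← Algebra.smul_def]
      have := h3 U (fun i => c i • x - l i) (by rw [e1, map_sub, map_smul]; exact l2)
      rw [e1] at this
      rw [mem_xs]
      simpa using add_mem (Submodule.mem_sup_left this) (Submodule.mem_sup_right l1)
    · obtain ⟨c, hc, hc'⟩ := xu u hu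
      have e1 : ι k x • (Pi.single i (ι k u) : I → Ex k V) =
          Pi.single i (ι k x * ι k u - mu ω (cst c)) +
          ∑ j, algebraMap k (Ex k V) (c j) • (Pi.single i (ω j) - Pi.single j (ω i)) + ω i • cst c := by
        funext m
        simp only [Pi.add_apply, Finset.sum_apply, Pi.smul_apply, Pi.sub_apply, smul_eq_mul, mul_sub,
          Finset.sum_sub_distrib, Pi.single_apply, mul_ite, mul_zero, Finset.sum_ite_eq, Finset.mem_univ,
          if_true, cst, mu_apply, Algebra.commutes]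
        split_ifs <;> simp
      rw [mem_xs, e1]
      exact add_mem (Submodule.mem_sup_left (add_mem (T3 i hc)
        (sum_mem fun j _ => Submodule.smul_mem _ _ (T4 U i j))))
        (Submodule.mem_sup_right (K.smul_mem _ hc'))
  have s2 : s ∈ TT ω U ⊔ K := e ▸ add_mem ht (mem_xs.1 (d3 (ih _ (lt1.trans_le le2) r r1)))
  obtain ⟨t, ht, q, hq, rfl⟩ := Submodule.mem_sup.1 s2
  refine add_mem ht ?_
  have q1 : mu ω q ∈ II U := by simpa using sub_mem hs (mu_TT hω ht)
  obtain ⟨m, d, g, rfl⟩ := Submodule.mem_span_set'.1 hq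
  choose c c1 c2 using fun j => (g j).2
  choose v v0 v1 v2 using fun j => K1 hω h1 h2 (c1 j ▸ c2 j)
  let F : (Fin m → Ex k V) →ₗ[Ex k V] (I → Ex k V) := Fintype.linearCombination (Ex k V) fun j => cst (c j)
  have F1 : ∀ d, mu ω (F d) + (∑ j, d j * ι k (v j)) * ι k x ∈ II U := by
    intro d
    have : mu ω (F d) + (∑ j, d j * ι k (v j)) * ι k x =
        ∑ j, d j * (mu ω (cst (c j)) - ι k x * ι k (v j)) := by
      simp only [F, Fintype.linearCombination_apply, map_sum, map_smul, Finset.sum_mul,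
        ← Finset.sum_add_distrib, smul_eq_mul, swap x, sub_neg_eq_add, mul_add, mul_assoc]
    rw [this]
    exact sum_mem fun j _ => Ideal.mul_mem_left _ _ (v2 j)
  have e2 : ∑ j, d j • (g j : I → Ex k V) = F d := by
    simp only [F, Fintype.linearCombination_apply, c1]
  rw [e2] at q1 ⊢
  have := lin m v _ d (colR hx (by simpa using sub_mem (F1 d) q1))
  refine (Submodule.span_le (p := (TT ω U).comap F)).2 ?_ this
  rintro _ (⟨a, rfl, ha⟩ | ⟨l, rfl, hl⟩)
  · have e3 : F (fun j => algebraMap k _ (a j)) = cst (∑ j, a j • c j) := by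
      funext i; simp [F, Fintype.linearCombination_apply, cst, Algebra.smul_def]
    have := F1 fun j => algebraMap k _ (a j)
    change F _ ∈ TT ω U
    rw [e3] at this ⊢
    refine T1 ?_
    have t2 := x_mul_mem (ι_mem ha)
    rw [swap, neg_mem_iff] at t2
    simp only [map_sum, map_smul, Algebra.smul_def (A := Ex k V)] at t2
    have t3 := sub_mem this t2
    rwa [add_sub_cancel_right] at t3
  · have e3 : F (fun j => ι k (l j)) = fun i => ι k (∑ j, c j i • l j) := by
      funext i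
      simp [F, Fintype.linearCombination_apply, cst, ← Algebra.commutes, ← Algebra.smul_def]
    have := F1 fun j => ι k (l j)
    change F _ ∈ TT ω U
    rw [e3] at this ⊢
    refine h3 U _ ?_
    have t2 := x_mul_mem hl
    rw [← central (sum_mem fun j _ => Submodule.mul_mem_mul ⟨_, rfl⟩ ⟨_, rfl⟩)] at t2
    simpa using sub_mem this t2

end Pool.Agent.H.MP_7e1e73_al
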