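import Mathlib
import Pool.Agent.H.MP_7e1e73_al.B

set_option autoImplicit false

namespace Pool.Agent.H.MP_7e1e73_al

open ExteriorAlgebra Module

variable {k V I : Type} [Field k] [AddCommGroup V] [Module k V] [Fintype I] [DecidableEq I]
  (ω : I → Ex k V)

noncomputable def JJ (U : Submodule k V) : Ideal (Ex k V) := II U ⊔ LinearMap.range (mu ω)

variable {ω}

lemma om_mem (U : Submodule k V) (i : I) : ω i ∈ JJ ω U :=
  Submodule.mem_sup_right ⟨Pi.single i 1, by rw [mu_single, one_mul]⟩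

lemma Q2_mono {U Y : Submodule k V} (h : U ≤ Y) : Q2 ω U ≤ Q2 ω Y :=
  sup_le_sup_left (mul_le_mul' le_rfl (Submodule.map_mono h)) _

variable (hω : ∀ i, ω i ∈ L1 k V * L1 k V)
include hω

lemma ann [FiniteDimensional k V] (h3 : H3 ω) {U : Submodule k V} {x : V} (hx : x ∉ U) {a : Ex k V}
    (h : ι k x * a ∈ JJ ω U) : a ∈ JJ ω (Ux ω U x) := by
  obtain ⟨φ, h1, h2⟩ := exists_phi hx
  have x1 : x ∈ U ⊔ k ∙ x := Submodule.mem_sup_right (Submodule.mem_span_singleton_self _)
  have le2 := le_Ux (ω := ω) U x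
  obtain ⟨i, hi, _, ⟨s, rfl⟩, e⟩ := Submodule.mem_sup.1 h
  have t := syz hω h3 (U ⊔ k ∙ x) s (by
    rw [← eq_sub_iff_add_eq'] at e
    exact e ▸ sub_mem (ι_mul_mem (ι_mem x1) a) (II_mono le_sup_left hi))
  have m : ∀ u ∈ Ux ω U x, ι k u ∈ JJ ω (Ux ω U x) := fun u hu => Submodule.mem_sup_left (ι_mem hu)
  have d : TT ω (U ⊔ k ∙ x) ≤ Submodule.comap (mu ω) (ds φ (JJ ω (Ux ω U x))) := by
    refine TT_le (fun c h => ?_) (fun l h => by simp [h]) (fun i u hu => ?_)
      (fun i j => by simp only [Submodule.mem_comap, mu_kos hω]; exact zero_mem _)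
    · obtain ⟨v, hv, e1, -⟩ := K1 hω h1 h2 h
      exact mem_ds.2 ⟨Submodule.mem_sup_right ⟨_, rfl⟩, e1 ▸ m v hv⟩
    · rw [Submodule.mem_comap, mu_single, mem_ds, dl_mul, Algebra.smul_def]
      exact ⟨ι_mul_mem (m u (le2 hu)) _,
        sub_mem (Ideal.mul_mem_left _ _ (om_mem _ i)) (ι_mul_mem (m u (le2 hu)) _)⟩
  have d1 : II U ≤ ds φ (JJ ω (Ux ω U x)) :=
    II_le_ds ((II_mono (le_sup_left.trans le2)).trans le_sup_left) h2
  have := (mem_ds.1 (add_mem (d1 hi) (d t))).2
  rw [e, dl_mul, h1, one_smul] at this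
  simpa using add_mem this (ι_mul_mem (m x (le2 x1)) (dl φ a))

lemma Q2_le (U : Submodule k V) : Q2 ω U ≤ L1 k V * L1 k V :=
  sup_le (Submodule.span_le.2 (by rintro _ ⟨i, rfl⟩; exact hω i))
    (mul_le_mul' le_rfl LinearMap.map_le_range)

lemma Q2_top : Q2 ω ⊤ = L1 k V * L1 k V :=
  le_antisymm (Q2_le hω _) (le_sup_of_le_right (by rw [Submodule.map_top]))

omit hω in
instance fin2 [FiniteDimensional k V] : FiniteDimensional k (L1 k V * L1 k V : Submodule k (Ex k V)) := by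
  rw [← pow_two]; exact exteriorPower.instFinite (R := k) (M := V) (n := 2)

lemma step [FiniteDimensional k V] (U : Submodule k V) (y : V) :
    finrank k (Q2 ω (U ⊔ k ∙ y)) + finrank k (Ux ω U y) ≤ finrank k (Q2 ω U) + finrank k V := by
  obtain ⟨C, hC⟩ := (Ux ω U y).exists_isCompl
  let f : V →ₗ[k] Ex k V := LinearMap.mulLeft k (ι k y) ∘ₗ ι k
  have := Submodule.finiteDimensional_of_le (Q2_le hω U)
  have l : Q2 ω (U ⊔ k ∙ y) ≤ Q2 ω U ⊔ C.map f := by
    refine sup_le (le_sup_of_le_left le_sup_left) (Submodule.mul_le.2 ?_)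
    rintro _ ⟨v, rfl⟩ _ ⟨u, hu, rfl⟩
    obtain ⟨u, hu', z, hz, rfl⟩ := Submodule.mem_sup.1 hu
    obtain ⟨c, rfl⟩ := Submodule.mem_span_singleton.1 hz
    obtain ⟨a, ha, b, hb, rfl⟩ := Submodule.mem_sup.1 (hC.sup_eq_top ▸ Submodule.mem_top (x := v))
    rw [map_add (ι k) u, mul_add, map_smul, mul_smul_comm, swap _ y, map_add (ι k) a, mul_add (ι k y)]
    refine add_mem (Submodule.mem_sup_left (Submodule.mem_sup_right (Submodule.mul_mem_mul ?_ ⟨u, hu', rfl⟩)))
      (Submodule.smul_mem _ _ (neg_mem (Submodule.add_mem_sup ha ⟨b, hb, rfl⟩)))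
    exact ⟨a + b, map_add _ _ _⟩
  have h1 := Submodule.finrank_mono l
  have h2 := Submodule.finrank_add_le_finrank_add_finrank (Q2 ω U) (C.map f)
  have h3 := Submodule.finrank_map_le f C
  have h4 := Submodule.finrank_add_eq_of_isCompl hC
  omega

lemma steps [FiniteDimensional k V] {U Y : Submodule k V} {D : ℕ}
    (hD : ∀ y, finrank k V ≤ finrank k (Ux ω U y) + D) : ∀ (m : ℕ) (W : Submodule k V), U ≤ W → W ≤ Y →
      finrank k Y = finrank k W + m → finrank k (Q2 ω Y) ≤ finrank k (Q2 ω W) + m * D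
  | 0, W, _, h2, h => by rw [Submodule.eq_of_le_of_finrank_eq h2 h.symm]; simp
  | m + 1, W, h1, h2, h => by
    obtain ⟨y, hy, hy'⟩ := SetLike.exists_of_lt (lt_of_le_of_ne h2 fun e => by rw [e] at h; omega)
    have e : finrank k (W ⊔ k ∙ y : Submodule k V) = finrank k W + 1 := by
      have := Submodule.finrank_sup_add_finrank_inf_eq W (k ∙ y)
      have y0 : y ≠ 0 := fun e => hy' (by rw [e]; exact zero_mem _)
      rw [finrank_span_singleton y0, ((Submodule.disjoint_span_singleton' y0).2 hy').eq_bot] at this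
      simpa using this
    have t := steps hD m (W ⊔ k ∙ y) (le_sup_of_le_left h1)
      (sup_le h2 ((Submodule.span_singleton_le_iff_mem _ _).2 hy)) (by omega)
    have s := step hω W y
    have s2 := Submodule.finrank_mono (show Ux ω U y ≤ Ux ω W y from Submodule.comap_mono (Q2_mono h1))
    have := hD y
    rw [add_mul]
    omega

theorem turan [FiniteDimensional k V] (h3 : H3 ω) : ∀ (n : ℕ) (U : Submodule k V),
    (∀ a ∈ L1 k V ^ (n + 1), a ∈ JJ ω U) → (n = 0 → U = ⊤) ∧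
      2 * n * ((finrank k (L1 k V * L1 k V : Submodule k (Ex k V)) : ℤ) - finrank k (Q2 ω U)) ≤
        (n - 1) * ((finrank k V : ℤ) - finrank k U) ^ 2
  | 0, U, h => by
    have : U = ⊤ := by
      by_contra hU
      obtain ⟨x, -, hx⟩ := SetLike.exists_of_lt (lt_top_iff_ne_top.2 hU)
      obtain ⟨φ, h1, h2⟩ := exists_phi hx
      have : JJ ω U ≤ ds φ (II ⊤) := by
        refine sup_le (II_le_ds (II_mono le_top) h2) ?_
        rintro _ ⟨s, rfl⟩
        refine sum_mem fun i _ => Ideal.mul_mem_left _ _ (mem_ds.2 ⟨two_top (hω i), ?_⟩)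
        obtain ⟨v, hv⟩ := dl2 φ (hω i)
        exact hv ▸ ι_mem trivial
      have := eps_II (mem_ds.1 (this (h (ι k x) (by simp)))).2
      rw [dl_ι, h1] at this
      simp at this
    subst this
    simp
  | n + 1, U, h => by
    refine ⟨by simp, ?_⟩
    by_cases hU : U = ⊤
    · subst hU; rw [Q2_top hω]; simp
    obtain ⟨x, hx, hm⟩ := (measure fun x => finrank k (Ux ω U x)).wf.has_min {x | x ∉ U}
      (by obtain ⟨x, -, hx⟩ := SetLike.exists_of_lt (lt_top_iff_ne_top.2 hU); exact ⟨x, hx⟩)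
    set Y := Ux ω U x with hY
    have le2 : U ≤ Y := le_sup_left.trans (le_Ux U x)
    obtain ⟨D, hD⟩ := Nat.exists_eq_add_of_le (Submodule.finrank_le Y)
    obtain ⟨m, hm'⟩ := Nat.exists_eq_add_of_le (Submodule.finrank_mono le2)
    have t := steps hω (U := U) (Y := Y) (D := D) (fun y => by
      by_cases hy : y ∈ U
      · have : Ux ω U y = ⊤ := eq_top_iff.2 fun v _ => by
          rw [mem_Ux, swap]
          exact neg_mem (Submodule.mem_sup_right (Submodule.mul_mem_mul ⟨v, rfl⟩ ⟨y, hy, rfl⟩))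
        rw [this, finrank_top]; omega
      · have : ¬ finrank k (Ux ω U y) < finrank k Y := hm y hy
        omega) m U le_rfl le2 hm'
    obtain ⟨i1, i2⟩ := turan h3 n Y fun a ha => ann hω h3 hx (h _ (by
      rw [pow_succ']; exact Submodule.mul_mem_mul ⟨x, rfl⟩ ha))
    zify at t
    rw [hD, hm'] at i2 ⊢
    push_cast at i2 ⊢
    rcases Nat.eq_zero_or_pos n with rfl | hn
    · have e := i1 rfl
      rw [e, Q2_top hω] at t
      rw [e, finrank_top] at hD
      have : D = 0 := by omega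
      subst this
      simp at t ⊢
      omega
    · zify at hn
      refine le_of_mul_le_mul_left ?_ hn
      nlinarith [sq_nonneg ((n : ℤ) * m - D), mul_le_mul_of_nonneg_left t (by positivity : (0 : ℤ) ≤ 2 * n * (n + 1)),
        mul_le_mul_of_nonneg_left i2 (by positivity : (0 : ℤ) ≤ n + 1)]

end Pool.Agent.H.MP_7e1e73_al
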