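import Mathlib
import Pool.Agent.H.MP_7e1e73_al.A

set_option autoImplicit false

namespace Pool.Agent.H.MP_7e1e73_al

open ExteriorAlgebra Module

variable {k E : Type} [Field k] [AddCommGroup E] [Module k E]

noncomputable def dx (x : E) : Ex k (Dual k E) →ₗ[k] Ex k (Dual k E) := dl (Dual.eval k E x)

noncomputable def Psi : ExteriorAlgebra k E →ₐ[k] (Module.End k (Ex k (Dual k E)))ᵐᵒᵖ :=
  ExteriorAlgebra.lift k ⟨(MulOpposite.opLinearEquiv k).toLinearMap ∘ₗ
      CliffordAlgebra.contractLeft (Q := (0 : QuadraticForm k (Dual k E))) ∘ₗ Dual.eval k E, fun x => by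
    apply MulOpposite.unop_injective
    exact LinearMap.ext fun a => CliffordAlgebra.contractLeft_contractLeft _ a⟩

noncomputable def ev (m : ℕ) : Ex k (Dual k E) →ₗ[k] (E [⋀^Fin m]→ₗ[k] k) where
  toFun a := (algebraMapInv.toLinearMap ∘ₗ LinearMap.applyₗ a ∘ₗ
    (MulOpposite.opLinearEquiv k).symm.toLinearMap ∘ₗ Psi.toLinearMap).compAlternatingMap (ιMulti k m)
  map_add' a b := by ext; simp
  map_smul' c a := by ext; simp

lemma ev_zero (a : Ex k (Dual k E)) (x : Fin 0 → E) : ev 0 a x = algebraMapInv a := by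
  simp [ev]

lemma ev_succ (m : ℕ) (a : Ex k (Dual k E)) (x : Fin (m + 1) → E) :
    ev (m + 1) a x = ev m (dx (x 0) a) (fun i => x i.succ) := by
  simp [ev, ιMulti_succ_apply, Psi]
  rfl

lemma dx_mul (x : E) (v : Dual k E) (b : Ex k (Dual k E)) :
    dx x (ι k v * b) = v x • b - ι k v * dx x b := dl_mul _ v b

lemma eps_ι (v : Dual k E) : algebraMapInv (ι k v) = (0 : k) := by simp [algebraMapInv]

lemma W1 : ∀ (m : ℕ) (v : Dual k E) (b : Ex k (Dual k E)) (x : Fin (m + 1) → E),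
    ev (m + 1) (ι k v * b) x = ∑ p : Fin (m + 1), (-1) ^ (p : ℕ) * (v (x p) * ev m b (p.removeNth x))
  | 0, v, b, x => by simp [ev_succ, ev_zero, dx_mul, eps_ι]
  | m + 1, v, b, x => by
    rw [ev_succ, dx_mul, map_sub, map_smul, AlternatingMap.sub_apply, W1 m, Fin.sum_univ_succ (n := m + 1),
      sub_eq_add_neg, ← Finset.sum_neg_distrib]
    congr 1
    · simp; exact Or.inl rfl
    · refine Finset.sum_congr rfl fun p _ => ?_
      rw [ev_succ m b, Fin.val_succ, pow_succ]
      simp only [Fin.removeNth, Fin.succ_succAbove_zero, Fin.succ_succAbove_succ]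
      rw [mul_neg_one, neg_mul]; rfl

lemma dx2 {a : Ex k (Dual k E)} (h : a ∈ L1 k (Dual k E) * L1 k (Dual k E)) (x : E) :
    ∃ v : Dual k E, (∀ y, v y = ev 2 a ![x, y]) ∧ ∀ b, dx x (a * b) = ι k v * b + a * dx x b := by
  refine ind2 h (p := fun a => ∃ v : Dual k E, (∀ y, v y = ev 2 a ![x, y]) ∧
    ∀ b, dx x (a * b) = ι k v * b + a * dx x b) (fun u v => ⟨u x • v - v x • u, fun y => ?_, fun b => ?_⟩) ?_
  · simp [ev_succ, ev_zero, dx_mul, dx, dl_mul, dl_ι, dl_alg, algebraMap_leftInverse _ _, eps_ι,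
      ← Algebra.commutes, ← Algebra.smul_def]
  · simp only [mul_assoc, dx_mul, map_sub, map_smul, sub_mul, mul_sub, smul_mul_assoc, mul_smul_comm]
    abel
  · rintro a b ⟨u, h1, h2⟩ ⟨v, h3, h4⟩
    exact ⟨u + v, fun y => by simp [h1, h3], fun c => by simp [add_mul, h2, h4]; abel⟩

lemma W2 {a : Ex k (Dual k E)} (h : a ∈ L1 k (Dual k E) * L1 k (Dual k E)) :
    ∀ (m : ℕ) (b : Ex k (Dual k E)) (x : Fin (m + 2) → E),
    ev (m + 2) (a * b) x = ∑ p : Fin (m + 2), ∑ q : Fin (m + 1), if (p : ℕ) ≤ q then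
      (-1) ^ ((p : ℕ) + q) * (ev 2 a ![x p, p.removeNth x q] * ev m b (q.removeNth (p.removeNth x))) else 0
  | 0, b, x => by
    obtain ⟨v, h1, h2⟩ := dx2 h (x 0)
    obtain ⟨w, -, h4⟩ := dx2 h (x 1)
    rw [ev_succ, h2, map_add, AlternatingMap.add_apply, W1, ev_succ 0 (a * _), ev_zero]
    simp [h4, eps_ι, eps_II (two_top h), h1, ev_zero, Fin.removeNth]
  | m + 1, b, x => by
    obtain ⟨v, h1, h2⟩ := dx2 h (x 0)
    rw [ev_succ, h2, map_add, AlternatingMap.add_apply, W1, W2 h m, Fin.sum_univ_succ (n := m + 2)]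
    congr 1
    · simp [h1]; rfl
    · refine Finset.sum_congr rfl fun p _ => ?_
      rw [Fin.sum_univ_succ (n := m + 1), if_neg (by simp), zero_add]
      refine Finset.sum_congr rfl fun q _ => ?_
      simp only [Fin.val_succ, add_le_add_iff_right, ev_succ m b, Fin.removeNth, Fin.succ_succAbove_zero,
        Fin.succ_succAbove_succ]
      rw [show (p : ℕ) + 1 + (q + 1) = p + q + 2 by ring, pow_add _ _ 2, neg_one_sq, mul_one]
      rfl

lemma van {W : Submodule k E} : ∀ (m : ℕ) {a : Ex k (Dual k E)}, a ∈ II W.dualAnnihilator →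
    ∀ x : Fin m → E, (∀ i, x i ∈ W) → ev m a x = 0
  | 0, _, h, _, _ => by rw [ev_zero, eps_II h]
  | m + 1, _, h, x, hx => by
    rw [ev_succ]
    exact van m (mem_ds.1 (II_le_ds le_rfl (fun u hu =>
      (Submodule.mem_dualAnnihilator u).1 hu _ (hx 0)) h)).2 _ fun i => hx _

lemma dx_pow (x : E) : ∀ (m : ℕ) {a : Ex k (Dual k E)}, a ∈ L1 k (Dual k E) ^ (m + 1) →
    dx x a ∈ L1 k (Dual k E) ^ m
  | 0, a, h => by
    rw [zero_add, pow_one] at h
    obtain ⟨v, rfl⟩ := h
    rw [dx, dl_ι, pow_zero]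
    exact Submodule.algebraMap_mem _
  | m + 1, a, h => by
    rw [pow_succ'] at h
    refine Submodule.mul_induction_on h ?_ fun a b ha hb => by rw [map_add]; exact add_mem ha hb
    rintro _ ⟨v, rfl⟩ b hb
    rw [dx_mul]
    refine sub_mem (Submodule.smul_mem _ _ hb) ?_
    rw [pow_succ']
    exact Submodule.mul_mem_mul ⟨v, rfl⟩ (dx_pow x m hb)

lemma inj [FiniteDimensional k E] {W : Submodule k E} : ∀ (m : ℕ) {a : Ex k (Dual k E)},
    a ∈ L1 k (Dual k E) ^ m → (∀ x : Fin m → E, (∀ i, x i ∈ W) → ev m a x = 0) → a ∈ II W.dualAnnihilator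
  | 0, a, h, h0 => by
    rw [pow_zero] at h
    obtain ⟨r, rfl⟩ := Submodule.mem_one.1 h
    have := h0 Fin.elim0 fun i => i.elim0
    rw [ev_zero, algebraMap_leftInverse] at this
    rw [this, map_zero]; exact zero_mem _
  | m + 1, a, h, h0 => by
    have d : ∀ w ∈ W, dx w a ∈ II W.dualAnnihilator := fun w hw => inj m (dx_pow w m h) fun x hx => by
      have := h0 (Fin.cons w x) fun i => Fin.cases hw hx i
      rwa [ev_succ] at this
    have key : ∀ Y : Submodule k (Dual k E), W.dualAnnihilator ≤ Y → a ∈ II Y → a ∈ II W.dualAnnihilator := by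
      intro Y
      induction Y using WellFoundedLT.induction with | ind Y ih => ?_
      intro h1 h2
      rcases h1.eq_or_lt with rfl | h3
      · exact h2
      obtain ⟨v, hv, hv'⟩ := SetLike.exists_of_lt h3
      rw [Submodule.mem_dualAnnihilator] at hv'
      push Not at hv'
      obtain ⟨w, hw, hw'⟩ := hv'
      set w' := (v w)⁻¹ • w with e
      have e1 : v w' = 1 := by simp [e, hw']
      have l : W.dualAnnihilator ≤ Y ⊓ LinearMap.ker (Dual.eval k E w') := le_inf h1 fun u hu =>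
        (Submodule.mem_dualAnnihilator u).1 hu _ (W.smul_mem _ hw)
      refine ih _ (lt_of_le_of_ne inf_le_left fun e => ?_) l ?_
      · have : v w' = 0 := (e.ge hv).2
        simp [e1] at this
      · have := colL (U := Y ⊓ LinearMap.ker (Dual.eval k E w')) (x := v) (φ := Dual.eval k E w') (a := a) e1
          (fun u hu => hu.2) (II_mono (fun y hy => Submodule.mem_sup.2 ⟨y - y w' • v,
            Submodule.mem_inf.2 ⟨sub_mem hy (Y.smul_mem _ hv), by simp [e1]⟩, y w' • v,
            Submodule.smul_mem _ _ (Submodule.mem_span_singleton_self _), by simp⟩) h2)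
        simpa [dx] using add_mem this (Ideal.mul_mem_left _ (ι k v) (II_mono l (d w' (W.smul_mem _ hw))))
    refine key ⊤ le_top ?_
    rw [pow_succ'] at h
    exact Submodule.mul_induction_on h (by rintro _ ⟨v, rfl⟩ b _; exact ι_mul_mem (ι_mem Submodule.mem_top) b)
      fun _ _ => add_mem

lemma inj0 [FiniteDimensional k E] {m : ℕ} {a : Ex k (Dual k E)} (h : a ∈ L1 k (Dual k E) ^ m)
    (h0 : ∀ x, ev m a x = 0) : a = 0 := by
  simpa [II] using inj (W := ⊤) m h fun x _ => h0 x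

lemma surj [FiniteDimensional k E] {m : ℕ} (f : E [⋀^Fin m]→ₗ[k] k) :
    ∃ b ∈ L1 k (Dual k E) ^ m, ev m b = f := by
  let e := exteriorPower.alternatingMapLinearEquiv (R := k) (n := m) (M := E) (N := k)
  have := e.symm.finiteDimensional
  have := (LinearMap.injective_iff_surjective_of_finrank_eq_finrank
    (f := ev m ∘ₗ (⋀[k]^m (Dual k E)).subtype) (by
      rw [e.finrank_eq, Subspace.dual_finrank_eq, exteriorPower.finrank_eq, exteriorPower.finrank_eq,
        Subspace.dual_finrank_eq])).1 ((injective_iff_map_eq_zero _).2 fun a ha =>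
      Subtype.ext (inj0 a.2 fun x => DFunLike.congr_fun ha x))
  obtain ⟨b, hb⟩ := this f
  exact ⟨b, b.2, hb⟩

end Pool.Agent.H.MP_7e1e73_al
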