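import Mathlib

set_option autoImplicit false

namespace Pool.Agent.H.MP_7e1e73_al

open DirectSum

/-- The Chevalley-Eilenberg differential with trivial coefficients. -/
noncomputable def ce (k L : Type) [Field k] [LieRing L] :
    (i : ℕ) → ((Fin i → L) → k) →ₗ[k] ((Fin (i + 1) → L) → k)
  | 0 => 0
  | i + 1 =>
    { toFun := fun f x => ∑ p : Fin (i + 2), ∑ q : Fin (i + 1), if (p : ℕ) ≤ q then
        (-1) ^ ((p : ℕ) + (q + 1)) *
          f (Fin.cons ⁅x p, p.removeNth x q⁆ (q.removeNth (p.removeNth x))) else 0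
      map_add' := fun f g => by
        funext x
        simp only [Pi.add_apply, ← Finset.sum_add_distrib]
        refine Finset.sum_congr rfl fun p _ => Finset.sum_congr rfl fun q _ => ?_
        split_ifs <;> simp [mul_add]
      map_smul' := fun c f => by
        funext x
        simp only [Pi.smul_apply, smul_eq_mul, RingHom.id_apply, Finset.mul_sum]
        refine Finset.sum_congr rfl fun p _ => Finset.sum_congr rfl fun q _ => ?_
        split_ifs <;> simp [mul_left_comm] }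

variable {k L : Type} [Field k] [LieRing L] [LieAlgebra k L]

/-- `G` is a grading of the Lie algebra `L` in positive degrees with finite-dimensional pieces. -/
def Graded (G : ℕ → Submodule k L) : Prop :=
  DirectSum.IsInternal G ∧ G 0 = ⊥ ∧ (∀ i, FiniteDimensional k (G i)) ∧
    ∀ i j, ∀ x ∈ G i, ∀ y ∈ G j, ⁅x, y⁆ ∈ G (i + j)

/-- Alternating `i`-forms on `L` of internal degree `j`. -/
def Co (G : ℕ → Submodule k L) (i j : ℕ) : Submodule k ((Fin i → L) → k) where
  carrier := {f | (∃ g : L [⋀^Fin i]→ₗ[k] k, ⇑g = f) ∧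
    ∀ (d : Fin i → ℕ) (x : Fin i → L), (∀ p, x p ∈ G (d p)) → ∑ p, d p ≠ j → f x = 0}
  add_mem' := by
    rintro _ _ ⟨⟨f, rfl⟩, hf⟩ ⟨⟨g, rfl⟩, hg⟩
    exact ⟨⟨f + g, rfl⟩, fun d x h1 h2 => by simp [hf d x h1 h2, hg d x h1 h2]⟩
  zero_mem' := ⟨⟨0, rfl⟩, fun _ _ _ _ => rfl⟩
  smul_mem' := by
    rintro c _ ⟨⟨f, rfl⟩, hf⟩
    exact ⟨⟨c • f, rfl⟩, fun d x h1 h2 => by simp [hf d x h1 h2]⟩

/-- Cocycles. -/
noncomputable def Zc (G : ℕ → Submodule k L) (i j : ℕ) : Submodule k ((Fin i → L) → k) :=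
  Co G i j ⊓ LinearMap.ker (ce k L i)

/-- Coboundaries. -/
noncomputable def Bc (G : ℕ → Submodule k L) : (i : ℕ) → ℕ → Submodule k ((Fin i → L) → k)
  | 0, _ => ⊥
  | i + 1, j => (Co G i j).map (ce k L i)

/-- Bigraded cohomology with trivial coefficients. -/
abbrev Hc (G : ℕ → Submodule k L) (i j : ℕ) := Zc G i j ⧸ (Bc G i j).submoduleOf (Zc G i j)

/-- Cohomology in homological degree `i`. -/
abbrev HH (G : ℕ → Submodule k L) (i : ℕ) := ⨁ j, Hc G i j

def Standard (G : ℕ → Submodule k L) : Prop :=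
  Module.Finite k (HH G 1) ∧ ∀ j, j ≠ 1 → Subsingleton (Hc G 1 j)

def Quadratic (G : ℕ → Submodule k L) : Prop :=
  Standard G ∧ ∀ j, j ≠ 2 → Subsingleton (Hc G 2 j)

/-- Bloch-Kato: quadratic, and so is every subalgebra generated by elements of degree one. -/
def BK (G : ℕ → Submodule k L) : Prop :=
  Quadratic G ∧ ∀ T : Set L, T ⊆ G 1 →
    Quadratic fun i => (G i).comap (LieSubalgebra.lieSpan k L T).incl.toLinearMap

end Pool.Agent.H.MP_7e1e73_al
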