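import Mathlib
import Pool.Agent.H.MP_7e1e73_al.C
import Pool.Agent.H.MP_7e1e73_al.D
import Pool.Agent.H.MP_7e1e73_al.Defs

set_option autoImplicit false

namespace Pool.Agent.H.MP_7e1e73_al

open ExteriorAlgebra Module

variable {k L : Type} [Field k] [LieRing L] [LieAlgebra k L]

def alt2 {M : Type} [AddCommGroup M] [Module k M] (B : M →ₗ[k] M →ₗ[k] k) (h : ∀ x, B x x = 0) :
    M [⋀^Fin 2]→ₗ[k] k where
  toFun x := B (x 0) (x 1)
  map_update_add' x i a b := by
    fin_cases i <;> simp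
  map_update_smul' x i a b := by
    fin_cases i <;> simp
  map_eq_zero_of_eq' x i j e hij := by
    fin_cases i <;> fin_cases j <;> simp_all

lemma alt2_apply {M : Type} [AddCommGroup M] [Module k M] (B : M →ₗ[k] M →ₗ[k] k) (h : ∀ x, B x x = 0)
    (x : Fin 2 → M) : alt2 B h x = B (x 0) (x 1) := rfl

def brk (k L : Type) [Field k] [LieRing L] [LieAlgebra k L] : L →ₗ[k] L →ₗ[k] L :=
  LinearMap.mk₂ k (fun x y => ⁅x, y⁆) add_lie smul_lie lie_add lie_smul

@[simp] lemma brk_apply (x y : L) : brk k L x y = ⁅x, y⁆ := rfl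

structure Proj (G : ℕ → Submodule k L) where
  p1 : L →ₗ[k] G 1
  p2 : L →ₗ[k] G 2
  a1 : ∀ x : G 1, p1 x = x
  a2 : ∀ x : G 2, p2 x = x
  z1 : ∀ j, j ≠ 1 → ∀ x ∈ G j, p1 x = 0
  z2 : ∀ j, j ≠ 2 → ∀ x ∈ G j, p2 x = 0
  f1 : ∀ x y : L, p1 ⁅x, y⁆ = 0
  f2 : ∀ x y : L, (p2 ⁅x, y⁆ : L) = ⁅(p1 x : L), (p1 y : L)⁆
  red : ∀ f ∈ Co G 2 2, ∀ x y, f ![x, y] = f ![p1 x, p1 y]

lemma exists_proj {G : ℕ → Submodule k L} (hG : Graded G) : Nonempty (Proj G) := by
  obtain ⟨hI, h0, -, hb⟩ := hG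
  classical
  letI := hI.chooseDecomposition
  let p : ∀ i, L →ₗ[k] G i := fun i =>
    DirectSum.component k ℕ (fun i => G i) i ∘ₗ (DirectSum.decomposeLinearEquiv G).toLinearMap
  have a : ∀ i (x : G i), p i x = x := fun i x =>
    Subtype.ext (DirectSum.decompose_of_mem_same G x.2)
  have z : ∀ i j, j ≠ i → ∀ x ∈ G j, p i x = 0 := fun i j h x hx =>
    Subtype.ext (DirectSum.decompose_of_mem_ne G hx h)
  have ext2 : ∀ {N : Type} [AddCommGroup N] [Module k N] (B : L →ₗ[k] L →ₗ[k] N),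
      (∀ i j, i ≠ 0 → j ≠ 0 → ∀ x ∈ G i, ∀ y ∈ G j, B x y = 0) → ∀ x y, B x y = 0 := by
    intro N _ _ B h x y
    have t : ∀ x : L, x ∈ ⨆ i, G i := fun x => hI.submodule_iSup_eq_top ▸ Submodule.mem_top
    refine Submodule.iSup_induction G (motive := fun x => B x y = 0) (t x) (fun i x hx => ?_) (by simp)
      (fun _ _ h1 h2 => by simp [h1, h2])
    refine Submodule.iSup_induction G (motive := fun y => B x y = 0) (t y) (fun j y hy => ?_) (by simp)
      (fun _ _ h1 h2 => by simp [h1, h2])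
    by_cases hi : i = 0
    · rw [hi, h0] at hx; simp [(Submodule.mem_bot k).1 hx]
    by_cases hj : j = 0
    · rw [hj, h0] at hy; simp [(Submodule.mem_bot k).1 hy]
    exact h i j hi hj x hx y hy
  let br := brk k L
  let q : L →ₗ[k] L := (G 1).subtype ∘ₗ p 1
  have q1 : ∀ x ∈ G 1, q x = x := fun x hx => congrArg Subtype.val (a 1 ⟨x, hx⟩)
  have q0 : ∀ i, i ≠ 1 → ∀ x ∈ G i, q x = 0 := fun i h x hx => congrArg Subtype.val (z 1 i h x hx)
  refine ⟨⟨p 1, p 2, a 1, a 2, z 1, z 2, ext2 (br.compr₂ (p 1)) fun i j hi hj x hx y hy =>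
    z 1 (i + j) (by omega) _ (hb i j x hx y hy), fun x y => sub_eq_zero.1 ?_, ?_⟩⟩
  · refine ext2 (br.compr₂ ((G 2).subtype ∘ₗ p 2) - br.compl₁₂ q q) (fun i j hi hj x hx y hy => ?_) x y
    change (p 2 ⁅x, y⁆ : L) - ⁅q x, q y⁆ = 0
    by_cases h : i = 1 ∧ j = 1
    · obtain ⟨rfl, rfl⟩ := h
      rw [q1 x hx, q1 y hy, sub_eq_zero]
      exact congrArg Subtype.val (a 2 ⟨_, hb 1 1 x hx y hy⟩)
    · rw [z 2 (i + j) (by omega) _ (hb i j x hx y hy)]
      rcases not_and_or.1 h with h | h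
      · simp [q0 i h x hx]
      · simp [q0 j h y hy]
  · rintro _ ⟨⟨f, rfl⟩, hf⟩ x y
    let B : L →ₗ[k] L →ₗ[k] k :=
        LinearMap.mk₂ k (fun x y => f ![x, y]) (fun a b c => f.map_vecCons_add _ a b)
          (fun c a b => f.map_vecCons_smul _ c a)
          (fun a b c => (f.curryLeft a).map_vecCons_add _ b c)
          (fun c a b => (f.curryLeft a).map_vecCons_smul _ c b)
    refine sub_eq_zero.1 (ext2 (B - B.compl₁₂ q q) (fun i j hi hj x hx y hy => ?_) x y)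
    change B x y - B (q x) (q y) = 0
    by_cases h : i = 1 ∧ j = 1
    · obtain ⟨rfl, rfl⟩ := h
      rw [q1 x hx, q1 y hy, sub_self]
    · have : B x y = 0 := hf ![i, j] ![x, y] (fun p => by fin_cases p <;> simpa) (by simp; omega)
      rcases not_and_or.1 h with h | h
      · simp [q0 i h x hx, this]
      · simp [q0 j h y hy, this]

variable {G : ℕ → Submodule k L} (P : Proj G)

noncomputable def Phi (m : ℕ) : Ex k (Dual k (G 1)) →ₗ[k] Zc G m m where
  toFun a := ⟨(ev m a).compLinearMap P.p1, ⟨⟨_, rfl⟩, fun d x h1 h2 => by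
    have : ∃ p, d p ≠ 1 := by
      by_contra h
      push Not at h
      simp [h] at h2
    obtain ⟨p, hp⟩ := this
    exact (ev m a).map_coord_zero p (P.z1 _ hp _ (h1 p))⟩, by
    cases m with
    | zero => rfl
    | succ m =>
      have : ∀ (u v : L) (r : Fin m → L), (ev (m + 1) a).compLinearMap P.p1 (Fin.cons ⁅u, v⁆ r) = 0 :=
        fun u v r => (ev (m + 1) a).map_coord_zero 0 (P.f1 _ _)
      refine LinearMap.mem_ker.2 ?_
      funext x
      simp only [ce, LinearMap.coe_mk, AddHom.coe_mk, this, mul_zero, ite_self, Finset.sum_const_zero,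
        Pi.zero_apply]⟩
  map_add' a b := by ext; simp
  map_smul' c a := by ext; simp

lemma Phi_apply (m : ℕ) (a : Ex k (Dual k (G 1))) (x : Fin m → L) :
    (Phi P m a).1 x = ev m a fun i => P.p1 (x i) := rfl

include P in
lemma b1 (h : Module.Finite k (Hc G 1 1)) : finrank k (Dual k (G 1)) ≤ finrank k (Hc G 1 1) := by
  refine LinearMap.finrank_le_finrank_of_injective (f := Submodule.mkQ _ ∘ₗ Phi P 1 ∘ₗ ι k)
    ((injective_iff_map_eq_zero _).2 fun v hv => ?_)
  obtain ⟨g, -, hg⟩ := (Submodule.Quotient.mk_eq_zero _).1 hv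
  ext x
  have := congrFun hg fun _ => x
  change 0 = ev 1 (ι k v) _ at this
  rw [ev_succ, ev_zero, dx, dl_ι, algebraMap_leftInverse, P.a1] at this
  exact this.symm

variable [FiniteDimensional k (G 1)] {I : Type} [Fintype I] [DecidableEq I] (y : Basis I k (G 2))

omit [Fintype I] [DecidableEq I] in
lemma exists_om : ∃ ω : I → Ex k (Dual k (G 1)), (∀ i, ω i ∈ L1 k _ * L1 k _) ∧
    ∀ i (a b : G 1), ev 2 (ω i) ![a, b] = y.repr (P.p2 ⁅(a : L), (b : L)⁆) i := by
  choose ω h1 h2 using fun i => surj (alt2 ((((brk k L).compr₂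
    (y.coord i ∘ₗ P.p2))).compl₁₂ (G 1).subtype (G 1).subtype) (fun x => by simp))
  exact ⟨ω, fun i => pow_two (L1 k (Dual k (G 1))) ▸ h1 i, fun i a b => by rw [h2]; rfl⟩

variable {ω : I → Ex k (Dual k (G 1))} (hω : ∀ i, ω i ∈ L1 k _ * L1 k _)
  (eω : ∀ i (a b : G 1), ev 2 (ω i) ![a, b] = y.repr (P.p2 ⁅(a : L), (b : L)⁆) i)

omit [FiniteDimensional k (G 1)] [DecidableEq I] in
lemma br_eq (a b : G 1) : ⁅(a : L), (b : L)⁆ = ∑ i, y.repr (P.p2 ⁅(a : L), (b : L)⁆) i • (y i : L) := by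
  have := congrArg Subtype.val (y.sum_repr (P.p2 ⁅(a : L), (b : L)⁆))
  rw [P.f2, P.a1, P.a1] at this
  simp only [Submodule.coe_sum, Submodule.coe_smul] at this
  exact this.symm

omit [FiniteDimensional k (G 1)] in
lemma alt_sum {M J : Type} [AddCommGroup M] [Module k M] {n : ℕ} (s : Finset J)
    (f : J → M [⋀^Fin n]→ₗ[k] k) (x : Fin n → M) : (∑ j ∈ s, f j) x = ∑ j ∈ s, f j x :=
  map_sum (AddMonoidHom.mk' (fun g : M [⋀^Fin n]→ₗ[k] k => g x) fun _ _ => rfl) f s

include hω eω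

lemma top (n : ℕ) (h : Subsingleton (Hc G (n + 1) (n + 1))) {a : Ex k (Dual k (G 1))}
    (ha : a ∈ L1 k _ ^ (n + 1)) : a ∈ JJ ω ⊥ := by
  obtain ⟨g, hg, e⟩ := (Submodule.Quotient.mk_eq_zero _).1
    (Subsingleton.elim (Submodule.Quotient.mk (Phi P (n + 1) a) : Hc G (n + 1) (n + 1)) 0)
  have e' : ∀ x : Fin (n + 1) → G 1, ce k L n g (fun i => x i) = ev (n + 1) a x := fun x => by
    rw [e]
    change ev (n + 1) a _ = _
    simp only [P.a1]
  cases n with
  | zero =>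
    rw [inj0 ha fun x => (e' x).symm]; exact zero_mem _
  | succ m =>
    obtain ⟨⟨g, rfl⟩, -⟩ := hg
    choose b b1 b2 using fun i => surj ((g.curryLeft (y i)).compLinearMap (G 1).subtype)
    have : a + ∑ i, ω i * b i = 0 := by
      refine inj0 (m := m + 2) (add_mem ha (sum_mem fun i _ => ?_)) fun x => ?_
      · rw [add_comm m, pow_add, pow_two]; exact Submodule.mul_mem_mul (hω i) (b1 i)
      rw [map_add, map_sum, AlternatingMap.add_apply, alt_sum, ← e']
      simp only [W2 (hω _), eω, b2]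
      rw [Finset.sum_comm]
      simp only [ce, LinearMap.coe_mk, AddHom.coe_mk, ← Finset.sum_add_distrib]
      refine Finset.sum_eq_zero fun p _ => ?_
      rw [Finset.sum_comm, ← Finset.sum_add_distrib]
      refine Finset.sum_eq_zero fun q _ => ?_
      split_ifs
      · have t : g (Fin.cons ⁅(x p : L), p.removeNth (fun i => (x i : L)) q⁆
            (q.removeNth (p.removeNth fun i => (x i : L)))) =
            g.curryLeft ⁅(x p : L), (p.removeNth x q : L)⁆ fun i => q.removeNth (p.removeNth x) i := rfl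
        rw [t, ← Finset.mul_sum, ← add_assoc, pow_succ, br_eq P y, map_sum, alt_sum]
        simp only [map_smul, AlternatingMap.smul_apply, smul_eq_mul, ← br_eq P y, mul_neg_one, neg_mul]
        exact neg_add_cancel _
      · simp
    refine Submodule.mem_sup_right ⟨fun i => -b i, ?_⟩
    rw [mu_apply, eq_neg_of_add_eq_zero_left this, ← Finset.sum_neg_distrib]
    exact Finset.sum_congr rfl fun i _ => by rw [neg_mul, central (hω i)]

lemma b2 : finrank k (Hc G 2 2) + finrank k (Q2 ω ⊥) ≤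
    finrank k (L1 k _ * L1 k _ : Submodule k (Ex k (Dual k (G 1)))) := by
  set S : Submodule k (Ex k (Dual k (G 1))) := L1 k _ * L1 k _ with hS
  let F : S →ₗ[k] Hc G 2 2 := Submodule.mkQ _ ∘ₗ Phi P 2 ∘ₗ S.subtype
  have s : LinearMap.range F = ⊤ := by
    refine eq_top_iff.2 fun z _ => ?_
    obtain ⟨⟨_, ⟨⟨f, rfl⟩, hf⟩, hf'⟩, rfl⟩ := Submodule.mkQ_surjective _ z
    obtain ⟨b, h1, h2⟩ := surj (f.compLinearMap (G 1).subtype)
    refine ⟨⟨b, hS ▸ pow_two (L1 k (Dual k (G 1))) ▸ h1⟩, congrArg (Submodule.mkQ _) (Subtype.ext ?_)⟩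
    funext x
    change ev 2 b _ = f x
    have := P.red f ⟨⟨f, rfl⟩, hf⟩ (x 0) (x 1)
    rw [h2, show x = ![x 0, x 1] by funext i; fin_cases i <;> rfl, this]
    exact congrArg f (by funext i; fin_cases i <;> rfl)
  have t : (Q2 ω ⊥).submoduleOf S ≤ LinearMap.ker F := by
    rintro ⟨a, ha⟩ h
    change a ∈ Q2 ω ⊥ at h
    rw [Q2, Submodule.map_bot, Submodule.mul_bot, sup_bot_eq] at h
    refine (Submodule.Quotient.mk_eq_zero _).2 ?_
    change (Phi P 2 a).1 ∈ Bc G 2 2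
    refine Submodule.span_induction (p := fun a _ => (Phi P 2 a).1 ∈ Bc G 2 2) ?_ (by simp)
      (fun _ _ _ _ h1 h2 => by simpa using add_mem h1 h2)
      (fun c _ _ h1 => by simpa using Submodule.smul_mem _ c h1) h
    rintro _ ⟨i, rfl⟩
    refine ⟨AlternatingMap.ofSubsingleton k L k (0 : Fin 1) (-y.coord i ∘ₗ P.p2), ⟨⟨_, rfl⟩, ?_⟩, ?_⟩
    · intro d x h1 h2
      simp [P.z2 (d 0) (by simpa using h2) _ (h1 0)]
    · funext x
      rw [Phi_apply, show (fun i => P.p1 (x i)) = ![P.p1 (x 0), P.p1 (x 1)] by funext i; fin_cases i <;> rfl,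
        eω, ← P.f2, P.a2]
      simp [ce, Fin.removeNth]
  have h1 := F.finrank_range_add_finrank_ker
  have h2 := Submodule.finrank_mono t
  rw [s, finrank_top] at h1
  rw [(Submodule.submoduleOfEquivOfLe (Q2_le hω ⊥)).finrank_eq] at h2
  omega

omit [FiniteDimensional k (G 1)] hω in
lemma E3 (l : I → Dual k (G 1)) (x : Fin 3 → G 1) : ev 3 (mu ω fun i => ι k (l i)) x =
    ∑ i, l i (x 0) * y.repr (P.p2 ⁅(x 1 : L), (x 2 : L)⁆) i -
    ∑ i, l i (x 1) * y.repr (P.p2 ⁅(x 0 : L), (x 2 : L)⁆) i +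
    ∑ i, l i (x 2) * y.repr (P.p2 ⁅(x 0 : L), (x 1 : L)⁆) i := by
  rw [mu_apply, map_sum, alt_sum, ← Finset.sum_sub_distrib, ← Finset.sum_add_distrib]
  refine Finset.sum_congr rfl fun i _ => ?_
  have e : ∀ z : Fin 2 → G 1, ev 2 (ω i) z = y.repr (P.p2 ⁅(z 0 : L), (z 1 : L)⁆) i := fun z => by
    rw [← eω]; exact congrArg _ (by funext i; fin_cases i <;> rfl)
  rw [W1, Fin.sum_univ_three, e, e, e]
  simp [Fin.removeNth, sub_eq_add_neg]
  exact Or.inl rfl

lemma h3_of (h : ∀ T : Set L, T ⊆ G 1 → Subsingleton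
    (Hc (fun i => (G i).comap (LieSubalgebra.lieSpan k L T).incl.toLinearMap) 2 3)) : H3 ω := by
  intro U l hl
  obtain ⟨W, rfl⟩ : ∃ W : Submodule k (G 1), U = W.dualAnnihilator :=
    ⟨_, Subspace.dualCoannihilator_dualAnnihilator_eq.symm⟩
  have h := h (Subtype.val '' (W : Set (G 1))) (by rintro _ ⟨w, -, rfl⟩; exact w.2)
  set M := LieSubalgebra.lieSpan k L (Subtype.val '' (W : Set (G 1))) with hM
  have mW : ∀ w ∈ W, (w : L) ∈ M := fun w hw => LieSubalgebra.subset_lieSpan ⟨w, hw, rfl⟩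
  have pW : ∀ x ∈ M, P.p1 x ∈ W := by
    intro x hx
    induction hx using LieSubalgebra.lieSpan_induction with
    | mem _ h => obtain ⟨w, hw, rfl⟩ := h; rwa [P.a1]
    | zero => simp
    | add _ _ _ _ h1 h2 => simpa using add_mem h1 h2
    | smul c _ _ h1 => simpa using W.smul_mem c h1
    | lie => simp [P.f1]
  let B : L →ₗ[k] L →ₗ[k] k := ∑ i, (LinearMap.mul k k).compl₁₂ (l i ∘ₗ P.p1) (y.coord i ∘ₗ P.p2)
  have hB : ∀ a b, B a b = ∑ i, l i (P.p1 a) * y.repr (P.p2 b) i := fun a b => by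
    simp [B, LinearMap.sum_apply]
  let c := alt2 ((B - B.flip).compl₁₂ M.incl.toLinearMap M.incl.toLinearMap) (fun x => by simp)
  have hc : ∀ x : Fin 2 → M, c x = B (x 0) (x 1) - B (x 1) (x 0) := fun x => rfl
  have B0 : ∀ i j, i + j ≠ 3 → ∀ a ∈ G i, ∀ b ∈ G j, B a b = 0 := fun i j h a ha b hb => by
    rw [hB]
    by_cases hi : i = 1
    · simp [P.z2 j (by omega) b hb]
    · simp [P.z1 i hi a ha]
  have c1 : ⇑c ∈ Zc (fun i => (G i).comap M.incl.toLinearMap) 2 3 := by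
    refine ⟨⟨⟨_, rfl⟩, fun d x h1 h2 => ?_⟩, LinearMap.mem_ker.2 ?_⟩
    · rw [Fin.sum_univ_two] at h2
      rw [hc, B0 _ _ h2 (x 0) (h1 0) (x 1) (h1 1), B0 _ _ (by omega) (x 1) (h1 1) (x 0) (h1 0), sub_zero]
    · funext x
      have := van 3 hl (fun i => P.p1 (x i)) fun i => pW _ (x i).2
      rw [E3 P y eω] at this
      simp only [← P.f2, P.a2] at this
      simp [ce, Fin.sum_univ_succ, hc, hB, P.f1, Fin.removeNth, Fin.tail]
      linear_combination this
  obtain ⟨_, ⟨⟨g, rfl⟩, -⟩, e⟩ := (Submodule.Quotient.mk_eq_zero _).1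
    (Subsingleton.elim (Submodule.Quotient.mk ⟨_, c1⟩ :
      Hc (fun i => (G i).comap M.incl.toLinearMap) 2 3) 0)
  obtain ⟨g, rfl⟩ := (AlternatingMap.ofSubsingleton k M k (0 : Fin 1)).surjective g
  obtain ⟨f, hf⟩ := LinearMap.exists_extend (p := M.toSubmodule) g
  have hf' : ∀ x : M, g x = f x := fun x => (LinearMap.congr_fun hf x).symm
  let l' : I → Dual k (G 1) := fun i => -(f ∘ₗ (brk k L).flip (y i) ∘ₗ (G 1).subtype)
  have l1 : ∀ a b c : G 1, ∑ i, l' i a * y.repr (P.p2 ⁅(b : L), (c : L)⁆) i =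
      -f ⁅(a : L), ⁅(b : L), (c : L)⁆⁆ := fun a b c => by
    conv_rhs => rw [br_eq P y b c, ← brk_apply (k := k), map_sum, map_sum, ← Finset.sum_neg_distrib]
    exact Finset.sum_congr rfl fun i _ => by simp [l', mul_comm]
  have l2 : mu ω (fun i => ι k (l' i)) = 0 := by
    refine inj0 (m := 3) (sum_mem fun i _ => ?_) fun x => ?_
    · rw [pow_succ', pow_two]; exact Submodule.mul_mem_mul ⟨_, rfl⟩ (hω i)
    · rw [E3 P y eω, l1, l1, l1, leibniz_lie (x 0 : L), ← lie_skew (x 2 : L)]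
      simp
  have l3 : ∀ w ∈ W, cst (fun i => (l i - l' i) w) ∈ TT ω W.dualAnnihilator := by
    intro w hw
    refine T1 (inj 2 (pow_two (L1 k (Dual k (G 1))) ▸ cst2 hω _) fun x hx => ?_)
    have := congrFun e ![⟨w, mW w hw⟩, ⟨_, M.lie_mem (mW _ (hx 0)) (mW _ (hx 1))⟩]
    change _ = c _ at this
    simp [ce, Fin.sum_univ_succ, hc, hB, P.f1, P.a1, Fin.removeNth, hf'] at this
    rw [mu_cst, map_sum, alt_sum, show x = ![x 0, x 1] by funext i; fin_cases i <;> rfl]
    simp only [map_smul, AlternatingMap.smul_apply, eω, smul_eq_mul, LinearMap.sub_apply, sub_mul,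
      Finset.sum_sub_distrib, l1]
    linear_combination -this
  obtain ⟨C, hC⟩ := W.exists_isCompl
  let b := Module.finBasis k W
  let v := fun s => b.coord s ∘ₗ W.projectionOnto C hC
  have : (fun i => ι k (l i)) = (fun i => ι k (l' i)) +
      ∑ s, ι k (v s) • cst (fun i => (l i - l' i) (b s)) +
      ∑ i, Pi.single i (ι k (l i - l' i - ∑ s, (l i - l' i) (b s) • v s)) := by
    rw [Finset.univ_sum_single]
    funext i
    simp only [cst, ← Algebra.commutes, ← Algebra.smul_def, Pi.add_apply, Finset.sum_apply, Pi.smul_apply,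
      smul_eq_mul, map_sub, map_sum, map_smul]
    abel
  rw [this]
  refine add_mem (add_mem (T2 l2) (sum_mem fun s _ => Submodule.smul_mem _ _ (l3 _ (b s).2)))
    (sum_mem fun i _ => T3 i (ι_mem ((Submodule.mem_dualAnnihilator _).2 fun w hw => ?_)))
  have := congrArg ((l i - l' i) ∘ₗ W.subtype) (b.sum_repr ⟨w, hw⟩)
  rw [map_sum] at this
  simp only [map_smul, smul_eq_mul, LinearMap.comp_apply, Submodule.subtype_apply] at this
  rw [LinearMap.sub_apply, ← this, LinearMap.sum_apply, sub_eq_zero]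
  refine Finset.sum_congr rfl fun s _ => ?_
  simp [v, Submodule.projectionOnto_apply_of_mem_left hC hw, mul_comm]

end Pool.Agent.H.MP_7e1e73_al
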